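import Pool.Agent.H29.RH.Transfer
import Pool.Agent.H77.HS.ModA
import Pool.Agent.H77.HS.ModI
import Pool.Agent.H3.HS.B0
import Pool.Agent.H3.HS.B1
import Pool.Agent.H91.HS.C1
import Pool.Agent.H91.HS.C2
import Pool.Agent.H62.HS.E
import Pool.Agent.H72.HS.F
import Pool.Agent.H94.HS.G0
import Pool.Agent.H74.HS.G1

/-!
# MP_b4c0b6_an (S05882): cube module and conclusion
-/

set_option autoImplicit false

namespace Pool.Agent.H29.RH
open MeasureTheory Finset Filter Topology Pool.Agent.H29.HS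

/-- the sign of a Walsh function -/
lemma walsh_sign {n : ℕ} (S T : Finset (Fin n)) :
    ∏ i ∈ S, radU (decide (i ∈ T)) = (-1 : ℝ) ^ (S ∩ T).card := by
  have h1 : ∀ i ∈ S, radU (decide (i ∈ T)) = if i ∈ T then (-1 : ℝ) else 1 := by
    intro i _
    by_cases h : i ∈ T <;> simp [radU, h]
  rw [Finset.prod_congr rfl h1, Finset.prod_ite, Finset.prod_const, Finset.prod_const_one, mul_one]
  congr 2

/-- subsets and boolean points -/
def boolEquiv (n : ℕ) : Finset (Fin n) ≃ (Fin n → Bool) where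
  toFun T := fun i => decide (i ∈ T)
  invFun x := Finset.univ.filter fun i => x i = true
  left_inv T := by ext i; simp
  right_inv x := by funext i; simp

theorem modI2 (hpos : ∃ c : ℝ, 0 < c ∧
      ∀ d n : ℕ, 1 ≤ d → 1 ≤ n →
        ∀ a : Finset (Fin n) → ℝ, (∀ S : Finset (Fin n), d < S.card → a S = 0) →
          ((∑ T : Finset (Fin n),
                |∑ S : Finset (Fin n), a S * (S.card : ℝ) * (-1 : ℝ) ^ (S ∩ T).card| ^
                  (10 / 9 : ℝ)) / (2 : ℝ) ^ n) ^ (1 / (10 / 9 : ℝ))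
            ≤ c * (d : ℝ) *
              ((∑ T : Finset (Fin n),
                  |∑ S : Finset (Fin n), a S * (-1 : ℝ) ^ (S ∩ T).card| ^ (10 / 9 : ℝ))
                / (2 : ℝ) ^ n) ^ (1 / (10 / 9 : ℝ))) :
    ∃ c : ℝ, 0 < c ∧ Hyp2 radM radU c := by
  obtain ⟨c, hc, H⟩ := hpos
  refine ⟨c, hc, ?_⟩
  intro ι _ _ d a ha
  by_cases hz : ∀ S : Finset ι, num a S = 0
  · have e0 : ∀ ω : ι → Bool, mev (num a) (fun i => radU (ω i)) = 0 := by
      intro ω
      unfold mev
      exact Finset.sum_eq_zero fun S _ => by rw [hz S, zero_mul]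
    simp_rw [e0]
    rw [nrm_zero]
    have := nrm_nonneg (μ := Measure.pi fun _ : ι => radM)
      (fun ω : ι → Bool => mev a (fun i => radU (ω i)))
    positivity
  push Not at hz
  obtain ⟨S₀, hS₀⟩ := hz
  have hcard : 1 ≤ S₀.card := by
    by_contra h
    apply hS₀
    unfold num
    have : S₀.card = 0 := by omega
    rw [this]; simp
  have haS : a S₀ ≠ 0 := by
    intro h; apply hS₀; unfold num; rw [h, mul_zero]
  have hd : 1 ≤ d := by
    by_contra h
    exact haS (ha S₀ (by omega))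
  set n := Fintype.card ι with hn
  have hn1 : 1 ≤ n := hcard.trans (Finset.card_le_univ S₀)
  set e : ι ≃ Fin n := Fintype.equivFin ι with he
  set b : Finset (Fin n) → ℝ := fun S => a (S.map e.symm.toEmbedding) with hb
  have hb0 : ∀ S : Finset (Fin n), d < S.card → b S = 0 := by
    intro S hS
    exact ha _ (by simpa using hS)
  have key := H d n hd hn1 b hb0
  rw [H77.HS.nrm_pi, H77.HS.nrm_pi]
  have e1 : ∀ ω : ι → Bool, mev a (fun i => radU (ω i)) =
      mev b (fun j => radU (ω (e.symm j))) := by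
    intro ω
    rw [hb, ← H77.HS.mev_transport e a (fun j => radU (ω (e.symm j)))]
    simp
  have e2 : ∀ ω : ι → Bool, mev (num a) (fun i => radU (ω i)) =
      mev (num b) (fun j => radU (ω (e.symm j))) := by
    intro ω
    rw [hb, ← H77.HS.num_transport, ← H77.HS.mev_transport e (num a)
      (fun j => radU (ω (e.symm j)))]
    simp
  simp only [e1, e2]
  rw [H77.HS.sum_transport e (fun x => |mev b (fun j => radU (x j))| ^ (10 / 9 : ℝ)),
    H77.HS.sum_transport e (fun x => |mev (num b) (fun j => radU (x j))| ^ (10 / 9 : ℝ))]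
  have e3 : ∀ (q : Finset (Fin n) → ℝ), ∑ x : Fin n → Bool,
      |mev q (fun j => radU (x j))| ^ (10 / 9 : ℝ) =
      ∑ T : Finset (Fin n), |∑ S : Finset (Fin n), q S * (-1 : ℝ) ^ (S ∩ T).card| ^
        (10 / 9 : ℝ) := by
    intro q
    symm
    apply Fintype.sum_equiv (boolEquiv n)
    intro T
    congr 2
    unfold mev
    refine Finset.sum_congr rfl fun S _ => ?_
    rw [← walsh_sign S T]
    rfl
  rw [e3, e3]
  have e4 : ∀ T : Finset (Fin n), ∑ S : Finset (Fin n), num b S * (-1 : ℝ) ^ (S ∩ T).card =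
      ∑ S : Finset (Fin n), b S * (S.card : ℝ) * (-1 : ℝ) ^ (S ∩ T).card := by
    intro T
    refine Finset.sum_congr rfl fun S _ => ?_
    unfold num; ring
  simp_rw [e4]
  exact key

theorem transfer_proved {Ω : Type} [MeasurableSpace Ω] {μ : Measure Ω} {u : Ω → ℝ}
    (hu : IsAlph μ u) {c : ℝ} (hc : 0 < c) (hyp : Hyp2 μ u c) : Hyp2 arcM arcU (15 / 17 * c) :=
  transfer2 H77.HS.modA1 H77.HS.modA3 H3.HS.b0 H3.HS.b1 H91.HS.c1 (H91.HS.c2 H91.HS.c1)
    H62.HS.eStmt H72.HS.fmain H94.HS.g0 H74.HS.g1Stmt hu hc hyp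

/-- a single variable bounds the constant from below -/
lemma one_le_of_hyp2 {c : ℝ} (h : Hyp2 arcM arcU c) : 1 ≤ c := by
  have hA := H94.HS.g0.1
  have hP : IsProbabilityMeasure arcM := hA.prob
  have h1 := h Unit 1 (fun S => if S = {()} then 1 else 0) (by
    intro S hS
    have := Finset.card_le_univ S
    simp at this
    omega)
  have e1 : ∀ x : Unit → ℝ, mev (fun S : Finset Unit => if S = {()} then (1 : ℝ) else 0) x =
      x () := by
    intro x
    unfold mev
    simp
  have e2 : ∀ x : Unit → ℝ, mev (num (fun S : Finset Unit => if S = {()} then (1 : ℝ) else 0)) x =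
      x () := by
    intro x
    unfold mev num
    simp
  simp_rw [e1, e2] at h1
  have e3 : nrm (Measure.pi fun _ : Unit => arcM) (fun ω => arcU (ω ())) = nrm arcM arcU := by
    unfold nrm
    congr 1
    have hm := measurePreserving_eval (fun _ : Unit => arcM) ()
    have h2 : ∫ y, |arcU y| ^ (10 / 9 : ℝ) ∂arcM = ∫ ω : Unit → AddCircle (1 : ℝ),
        |arcU (ω ())| ^ (10 / 9 : ℝ) ∂(Measure.pi fun _ : Unit => arcM) := by
      conv_lhs => rw [← hm.map_eq]
      rw [integral_map hm.measurable.aemeasurable]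
      exact ((hA.bm.rpow).1).aestronglyMeasurable
    exact h2.symm
  rw [e3] at h1
  have h3 : 0 < nrm arcM arcU := lt_of_le_of_ne (nrm_nonneg _) (Ne.symm H94.HS.g0.2.1)
  by_contra hc
  push Not at hc
  have : c * nrm arcM arcU < 1 * nrm arcM arcU := mul_lt_mul_of_pos_right hc h3
  push_cast at h1
  linarith

theorem final2 (hpos : ∃ c : ℝ, 0 < c ∧
      ∀ d n : ℕ, 1 ≤ d → 1 ≤ n →
        ∀ a : Finset (Fin n) → ℝ, (∀ S : Finset (Fin n), d < S.card → a S = 0) →
          ((∑ T : Finset (Fin n),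
                |∑ S : Finset (Fin n), a S * (S.card : ℝ) * (-1 : ℝ) ^ (S ∩ T).card| ^
                  (10 / 9 : ℝ)) / (2 : ℝ) ^ n) ^ (1 / (10 / 9 : ℝ))
            ≤ c * (d : ℝ) *
              ((∑ T : Finset (Fin n),
                  |∑ S : Finset (Fin n), a S * (-1 : ℝ) ^ (S ∩ T).card| ^ (10 / 9 : ℝ))
                / (2 : ℝ) ^ n) ^ (1 / (10 / 9 : ℝ))) : False := by
  obtain ⟨c, hc, h0⟩ := modI2 hpos
  have hrad := H77.HS.rad_isAlph
  have hA := H94.HS.g0.1
  have key : ∀ k : ℕ, Hyp2 arcM arcU ((15 / 17) ^ (k + 1) * c) := by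
    intro k
    induction k with
    | zero =>
      have := transfer_proved hrad hc h0
      simpa using this
    | succ k ih =>
      have := transfer_proved hA (c := (15 / 17) ^ (k + 1) * c) (by positivity) ih
      rw [pow_succ (15 / 17 : ℝ) (k + 1)]
      rw [show ((15 / 17 : ℝ) ^ (k + 1) * (15 / 17) * c) = 15 / 17 * ((15 / 17) ^ (k + 1) * c) by
        ring]
      exact this
  have h1 : Tendsto (fun k : ℕ => (15 / 17 : ℝ) ^ (k + 1) * c) atTop (𝓝 0) := by
    have := (tendsto_pow_atTop_nhds_zero_of_lt_one (by norm_num : (0 : ℝ) ≤ 15 / 17)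
      (by norm_num)).comp (tendsto_add_atTop_nat 1)
    simpa using this.mul_const c
  obtain ⟨k, hk⟩ := (h1.eventually (gt_mem_nhds (by norm_num : (0 : ℝ) < 1))).exists
  exact absurd (one_le_of_hyp2 (key k)) (not_le.2 hk)

end Pool.Agent.H29.RH
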