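import Pool.Agent.H29.HS.Gadget

/-!
# MP_b4c0b6_an (S05882): Taylor truncation of `e^{(2/9)s²} W_N(s)`, discrete version
-/

set_option autoImplicit false

namespace Pool.Agent.H29.RH
open Finset Pool.Agent.H29.HS

def D2Stmt : Prop := ∀ m : ℕ, 1 ≤ m → ∀ N : ℕ, ∃ (J : Type) (_ : Fintype J) (s κ : J → ℂ),
  (∀ e : ℕ, 255 * m ^ 2 ≤ e → e ≤ N → ∑ j, κ j * s j ^ e = (Complex.I * (17 * m)) ^ e) ∧
  (∑ j, ‖κ j‖ * Real.exp (phi (s j)) ≤ 28 * Real.exp (138 * (m : ℝ) ^ 2)) ∧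
  (∀ j, ‖s j‖ ≤ 20 * m)

/-- partial exponential sum -/
noncomputable def EQ (n : ℕ) (z : ℂ) : ℂ := ∑ l ∈ range n, z ^ l / (l.factorial : ℂ)

lemma exists_EQ (Z : ℝ) : ∃ n : ℕ, 1 ≤ n ∧ ∀ z : ℂ, ‖z‖ ≤ Z →
    ‖EQ n z‖ ≤ 2 * ‖Complex.exp z‖ ∧ (1 / 2) * ‖Complex.exp z‖ ≤ ‖EQ n z‖ := by
  have h1 := FloorSemiring.tendsto_pow_div_factorial_atTop Z
  have h2 : ∀ᶠ n : ℕ in Filter.atTop, Z ^ n / (n.factorial : ℝ) < Real.exp (-Z) / 4 :=
    h1.eventually_lt_const (by positivity)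
  have h3 : ∀ᶠ n : ℕ in Filter.atTop, 2 * Z ≤ n :=
    Filter.tendsto_atTop.1 tendsto_natCast_atTop_atTop (2 * Z)
  obtain ⟨n, hn1, hn2, hn3⟩ := (h2.and (h3.and (Filter.eventually_ge_atTop 1))).exists
  refine ⟨n, hn3, fun z hz => ?_⟩
  have h4 : ‖Complex.exp z - ∑ l ∈ range n, z ^ l / (l.factorial : ℂ)‖ ≤
      ‖z‖ ^ n / n.factorial * 2 := by
    apply Complex.exp_bound'
    rw [div_le_iff₀ (by positivity)]
    push_cast
    linarith
  have h5 : ‖z‖ ^ n / n.factorial ≤ Z ^ n / n.factorial := by gcongr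
  have h6 : Real.exp (-Z) ≤ ‖Complex.exp z‖ := by
    rw [Complex.norm_exp]
    apply Real.exp_le_exp.2
    have := (abs_le.1 ((Complex.abs_re_le_norm z).trans hz)).1
    exact this
  have h7 : ‖Complex.exp z - EQ n z‖ ≤ (1 / 2) * ‖Complex.exp z‖ := by
    unfold EQ
    linarith
  constructor
  · have := norm_sub_norm_le (EQ n z) (Complex.exp z)
    rw [norm_sub_rev] at this
    have h8 := norm_nonneg (Complex.exp z)
    linarith
  · have := norm_sub_norm_le (Complex.exp z) (EQ n z)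
    linarith

/-- discrete orthogonality -/
lemma orth {D : ℕ} (hD : 0 < D) (ζ : ℂ) (hζ : IsPrimitiveRoot ζ D) {e k : ℕ} (he : e < D)
    (hk : k < D) : ∑ j : Fin D, (ζ ^ (j : ℕ)) ^ e * ((ζ ^ (j : ℕ))⁻¹) ^ k =
      if e = k then (D : ℂ) else 0 := by
  have hζ0 : ζ ≠ 0 := hζ.ne_zero hD.ne'
  have h1 : ∀ j : Fin D, (ζ ^ (j : ℕ)) ^ e * ((ζ ^ (j : ℕ))⁻¹) ^ k = (ζ ^ e / ζ ^ k) ^ (j : ℕ) := by
    intro j
    rw [div_pow, inv_pow, ← pow_mul, ← pow_mul, ← pow_mul, ← pow_mul, mul_comm (j : ℕ) e,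
      mul_comm (j : ℕ) k, div_eq_mul_inv]
  simp_rw [h1]
  split_ifs with h
  · subst h
    rw [div_self (pow_ne_zero _ hζ0)]
    simp
  · have hne : ζ ^ e / ζ ^ k ≠ 1 := by
      intro h2
      rw [div_eq_one_iff_eq (pow_ne_zero _ hζ0)] at h2
      exact h (hζ.pow_inj he hk h2)
    rw [Fin.sum_univ_eq_sum_range (fun j => (ζ ^ e / ζ ^ k) ^ j) D, geom_sum_eq hne, div_pow,
      ← pow_mul, ← pow_mul, mul_comm e, mul_comm k, pow_mul, pow_mul, hζ.pow_eq_one]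
    simp

theorem d2 : D2Stmt := by
  intro m hm N
  have hmR : (1 : ℝ) ≤ m := by exact_mod_cast hm
  have hmC : (m : ℂ) ≠ 0 := by
    have : m ≠ 0 := by omega
    exact_mod_cast this
  obtain ⟨n, hn1, hn⟩ := exists_EQ (2 / 9 * (20 * m) ^ 2)
  set M : ℕ := 255 * m ^ 2 with hM
  set D : ℕ := N + 2 * n + 1 with hDdef
  have hD : 0 < D := by omega
  have hDC : (D : ℂ) ≠ 0 := by exact_mod_cast hD.ne'
  set ζ : ℂ := Complex.exp (2 * Real.pi * Complex.I / D) with hζdef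
  have hζ : IsPrimitiveRoot ζ D := Complex.isPrimitiveRoot_exp D hD.ne'
  have hζ0 : ζ ≠ 0 := hζ.ne_zero hD.ne'
  have hζn : ‖ζ‖ = 1 := hζ.norm'_eq_one hD.ne'
  set v : ℂ := Complex.I * (17 * m) with hv
  have hvn : ‖v‖ = 17 * m := by
    rw [hv]; simp
  have hv0 : v ≠ 0 := by rw [hv]; simp [hmC]
  let s : Fin D → ℂ := fun j => (20 * m : ℂ) * ζ ^ (j : ℕ)
  have hs0 : ∀ j, s j ≠ 0 := fun j => mul_ne_zero (mul_ne_zero (by norm_num) hmC)
    (pow_ne_zero _ hζ0)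
  have hsn : ∀ j, ‖s j‖ = 20 * m := by
    intro j
    simp [s, hζn]
  let E : ℂ → ℂ := fun z => EQ n (2 / 9 * z ^ 2)
  let μ : Fin D → ℂ := fun j => (D : ℂ)⁻¹ * ∑ k ∈ Ico M D, (v / s j) ^ k
  have hzb : ∀ z : ℂ, ‖z‖ ≤ 20 * m → ‖(2 / 9 : ℂ) * z ^ 2‖ ≤ 2 / 9 * (20 * m) ^ 2 := by
    intro z hz
    rw [norm_mul, norm_pow]
    have : ‖(2 / 9 : ℂ)‖ = 2 / 9 := by
      rw [norm_div]; simp
    rw [this]
    gcongr
  have hvE := hn _ (hzb v (by rw [hvn]; linarith))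
  have hE0 : E v ≠ 0 := by
    intro h
    have h2 : EQ n (2 / 9 * v ^ 2) = 0 := h
    rw [h2, norm_zero] at hvE
    have := norm_pos_iff.2 (Complex.exp_ne_zero (2 / 9 * v ^ 2))
    linarith [hvE.2]
  -- moments of μ
  have hμ : ∀ e : ℕ, M ≤ e → e < D → ∑ j, μ j * s j ^ e = v ^ e := by
    intro e he1 he2
    have h1 : ∀ j, μ j * s j ^ e = ∑ k ∈ Ico M D, (D : ℂ)⁻¹ * (v ^ k * (20 * m : ℂ) ^ e /
        (20 * m : ℂ) ^ k) * ((ζ ^ (j : ℕ)) ^ e * ((ζ ^ (j : ℕ))⁻¹) ^ k) := by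
      intro j
      simp only [μ]
      rw [mul_assoc, Finset.sum_mul, Finset.mul_sum]
      refine Finset.sum_congr rfl fun k _ => ?_
      simp only [s]
      rw [div_pow, mul_pow (20 * (m : ℂ)) (ζ ^ (j : ℕ)) k, mul_pow (20 * (m : ℂ)) (ζ ^ (j : ℕ)) e,
        inv_pow]
      have h20 : (20 * m : ℂ) ^ k ≠ 0 := pow_ne_zero _ (mul_ne_zero (by norm_num) hmC)
      have hz : (ζ ^ (j : ℕ)) ^ k ≠ 0 := pow_ne_zero _ (pow_ne_zero _ hζ0)
      field_simp
    simp_rw [h1]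
    rw [Finset.sum_comm]
    simp_rw [← Finset.mul_sum]
    have h2 : ∀ k ∈ Ico M D, (D : ℂ)⁻¹ * (v ^ k * (20 * m : ℂ) ^ e / (20 * m : ℂ) ^ k) *
        ∑ j : Fin D, ((ζ ^ (j : ℕ)) ^ e * ((ζ ^ (j : ℕ))⁻¹) ^ k) =
        if e = k then v ^ e else 0 := by
      intro k hk
      rw [Finset.mem_Ico] at hk
      rw [orth hD ζ hζ he2 hk.2]
      split_ifs with h
      · subst h
        have h20 : (20 * m : ℂ) ^ e ≠ 0 := pow_ne_zero _ (mul_ne_zero (by norm_num) hmC)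
        field_simp
      · ring
    rw [Finset.sum_congr rfl h2, Finset.sum_ite_eq, if_pos (Finset.mem_Ico.2 ⟨he1, he2⟩)]
  -- norms of μ
  have hμn : ∀ j, ‖μ j‖ ≤ (D : ℝ)⁻¹ * ((17 / 20) ^ M * (20 / 3)) := by
    intro j
    simp only [μ]
    rw [norm_mul, norm_inv, Complex.norm_natCast]
    refine mul_le_mul_of_nonneg_left ?_ (by positivity)
    refine (norm_sum_le _ _).trans ?_
    have h1 : ∀ k ∈ Ico M D, ‖(v / s j) ^ k‖ = (17 / 20 : ℝ) ^ k := by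
      intro k _
      rw [norm_pow, norm_div, hvn, hsn]
      congr 1
      have : (m : ℝ) ≠ 0 := by positivity
      field_simp
    rw [Finset.sum_congr rfl h1]
    rcases Nat.lt_or_ge M D with h | h
    · rw [geom_sum_Ico' (by norm_num) h.le]
      have h3 : (0 : ℝ) ≤ (17 / 20) ^ D := by positivity
      rw [div_le_iff₀ (by norm_num)]
      nlinarith
    · rw [Finset.Ico_eq_empty (by omega)]
      simp; positivity
  refine ⟨Fin D, inferInstance, s, fun j => μ j * E (s j) / E v, ?_, ?_, fun j => (hsn j).le⟩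
  · intro e he1 he2
    have h1 : ∑ j, μ j * E (s j) / E v * s j ^ e = (∑ j, μ j * s j ^ e * E (s j)) / E v := by
      rw [Finset.sum_div]
      refine Finset.sum_congr rfl fun j _ => ?_
      ring
    rw [h1, div_eq_iff hE0]
    have h2 : ∀ z : ℂ, E z = ∑ l ∈ range n, ((2 / 9 : ℂ) ^ l / (l.factorial : ℂ)) * z ^ (2 * l) := by
      intro z
      simp only [E, EQ]
      refine Finset.sum_congr rfl fun l _ => ?_
      rw [mul_pow, ← pow_mul]
      ring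
    have h3 : ∀ j, μ j * s j ^ e * E (s j) =
        ∑ l ∈ range n, ((2 / 9 : ℂ) ^ l / (l.factorial : ℂ)) * (μ j * s j ^ (e + 2 * l)) := by
      intro j
      rw [h2, Finset.mul_sum]
      refine Finset.sum_congr rfl fun l _ => ?_
      rw [pow_add]; ring
    simp_rw [h3]
    rw [Finset.sum_comm, h2, Finset.mul_sum]
    refine Finset.sum_congr rfl fun l hl => ?_
    rw [Finset.mem_range] at hl
    rw [← Finset.mul_sum, hμ (e + 2 * l) (by omega) (by omega), pow_add]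
    ring
  · -- the norm bound
    have hEv : (1 / 2 : ℝ) * Real.exp (-(578 / 9) * (m : ℝ) ^ 2) ≤ ‖E v‖ := by
      have h1 := hvE.2
      have h2 : ‖Complex.exp (2 / 9 * v ^ 2)‖ = Real.exp (-(578 / 9) * (m : ℝ) ^ 2) := by
        rw [Complex.norm_exp]
        congr 1
        have : (2 / 9 : ℂ) * v ^ 2 = ((-(578 / 9) * (m : ℝ) ^ 2 : ℝ) : ℂ) := by
          rw [hv, mul_pow, Complex.I_sq]
          push_cast
          ring
        rw [this, Complex.ofReal_re]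
      rw [h2] at h1
      exact h1
    have hEs : ∀ j, ‖E (s j)‖ * Real.exp (phi (s j)) ≤ 2 * Real.exp (1000 / 9 * (m : ℝ) ^ 2) := by
      intro j
      have h1 := (hn _ (hzb (s j) (hsn j).le)).1
      have h2 : ‖Complex.exp (2 / 9 * s j ^ 2)‖ * Real.exp (phi (s j)) =
          Real.exp (1000 / 9 * (m : ℝ) ^ 2) := by
        rw [Complex.norm_exp, ← Real.exp_add]
        congr 1
        have h3 : ((2 / 9 : ℂ) * s j ^ 2).re = 2 / 9 * ((s j).re ^ 2 - (s j).im ^ 2) := by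
          have : (2 / 9 : ℂ) = ((2 / 9 : ℝ) : ℂ) := by push_cast; ring
          rw [this, Complex.re_ofReal_mul, sq, Complex.mul_re]
          ring
        have h4 : (s j).re ^ 2 + (s j).im ^ 2 = (20 * m) ^ 2 := by
          rw [← hsn j, Complex.sq_norm, Complex.normSq_apply]
          ring
        rw [h3]
        unfold phi
        linear_combination (5 / 18) * h4
      calc ‖E (s j)‖ * Real.exp (phi (s j)) ≤ 2 * ‖Complex.exp (2 / 9 * s j ^ 2)‖ *
            Real.exp (phi (s j)) := mul_le_mul_of_nonneg_right h1 (Real.exp_nonneg _)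
        _ = _ := by rw [mul_assoc, h2]
    have h5 : ∀ j, ‖μ j * E (s j) / E v‖ * Real.exp (phi (s j)) ≤
        (D : ℝ)⁻¹ * ((17 / 20) ^ M * (20 / 3)) * (2 * Real.exp (1000 / 9 * (m : ℝ) ^ 2)) *
          (2 * Real.exp (578 / 9 * (m : ℝ) ^ 2)) := by
      intro j
      rw [norm_div, norm_mul]
      have h6 : ‖E v‖⁻¹ ≤ 2 * Real.exp (578 / 9 * (m : ℝ) ^ 2) := by
        have h7 : 0 < (1 / 2 : ℝ) * Real.exp (-(578 / 9) * (m : ℝ) ^ 2) := by positivity
        refine (inv_anti₀ h7 hEv).trans (le_of_eq ?_)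
        rw [mul_inv, ← Real.exp_neg]
        norm_num
      calc ‖μ j‖ * ‖E (s j)‖ / ‖E v‖ * Real.exp (phi (s j)) =
            ‖μ j‖ * (‖E (s j)‖ * Real.exp (phi (s j))) * ‖E v‖⁻¹ := by ring
        _ ≤ ((D : ℝ)⁻¹ * ((17 / 20) ^ M * (20 / 3))) * (2 * Real.exp (1000 / 9 * (m : ℝ) ^ 2)) *
            (2 * Real.exp (578 / 9 * (m : ℝ) ^ 2)) := by
            refine mul_le_mul (mul_le_mul (hμn j) (hEs j) (by positivity) (by positivity)) h6
              (by positivity) (by positivity)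
    refine (Finset.sum_le_sum fun j _ => h5 j).trans ?_
    rw [Finset.sum_const, Finset.card_univ, Fintype.card_fin, nsmul_eq_mul]
    have h8 : (17 / 20 : ℝ) ^ M ≤ Real.exp (-(153 / 4) * (m : ℝ) ^ 2) := by
      have h9 : (17 / 20 : ℝ) ≤ Real.exp (-(3 / 20)) := by
        have := Real.add_one_le_exp (-(3 / 20) : ℝ)
        linarith
      refine (pow_le_pow_left₀ (by norm_num) h9 _).trans (le_of_eq ?_)
      rw [← Real.exp_nat_mul, hM]
      congr 1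
      push_cast
      ring
    have hDR : (D : ℝ) ≠ 0 := by positivity
    have h10 : Real.exp (-(153 / 4) * (m : ℝ) ^ 2) * Real.exp (1000 / 9 * (m : ℝ) ^ 2) *
        Real.exp (578 / 9 * (m : ℝ) ^ 2) ≤ Real.exp (138 * (m : ℝ) ^ 2) := by
      rw [← Real.exp_add, ← Real.exp_add]
      apply Real.exp_le_exp.2
      nlinarith [sq_nonneg (m : ℝ)]
    calc (D : ℝ) * ((D : ℝ)⁻¹ * ((17 / 20) ^ M * (20 / 3)) *
          (2 * Real.exp (1000 / 9 * (m : ℝ) ^ 2)) * (2 * Real.exp (578 / 9 * (m : ℝ) ^ 2))) =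
          (80 / 3) * ((17 / 20) ^ M * Real.exp (1000 / 9 * (m : ℝ) ^ 2) *
            Real.exp (578 / 9 * (m : ℝ) ^ 2)) := by
          field_simp
          ring
      _ ≤ (80 / 3) * (Real.exp (-(153 / 4) * (m : ℝ) ^ 2) * Real.exp (1000 / 9 * (m : ℝ) ^ 2) *
            Real.exp (578 / 9 * (m : ℝ) ^ 2)) := by gcongr
      _ ≤ (80 / 3) * Real.exp (138 * (m : ℝ) ^ 2) := by gcongr
      _ ≤ _ := by
          have := Real.exp_pos (138 * (m : ℝ) ^ 2)
          linarith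

end Pool.Agent.H29.RH
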