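import Pool.Agent.H29.HS.H
import Pool.Agent.H29.RH.Taylor

/-!
# MP_b4c0b6_an (S05882): the transfer for the reverse inequality, `p = 10/9`
-/

set_option autoImplicit false

namespace Pool.Agent.H29.RH
open MeasureTheory Finset Filter Topology Pool.Agent.H29.HS

/-- reverse heat smoothing with constant `c` for the alphabet `(μ,u)` -/
def Hyp2 {Ω : Type} [MeasurableSpace Ω] (μ : Measure Ω) (u : Ω → ℝ) (c : ℝ) : Prop :=
  ∀ (ι : Type) [Fintype ι] [DecidableEq ι] (d : ℕ) (a : Finset ι → ℝ),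
    (∀ S : Finset ι, d < S.card → a S = 0) →
    nrm (Measure.pi fun _ : ι => μ) (fun ω => mev (num a) (fun i => u (ω i))) ≤
      c * d * nrm (Measure.pi fun _ : ι => μ) (fun ω => mev a (fun i => u (ω i)))

/-- degree bound for compositions -/
lemma comp_deg {ι κ : Type} [DecidableEq ι] [Fintype κ] [DecidableEq κ]
    (a : Finset ι → ℝ) (g : Finset κ → ℝ) (d M : ℕ)
    (ha : ∀ S : Finset ι, d < S.card → a S = 0) (hg : ∀ K : Finset κ, M < K.card → g K = 0)
    (T : Finset (ι × κ)) (hT : d * M < T.card) : HS.comp a g T = 0 := by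
  unfold HS.comp
  by_cases h1 : d < (T.image Prod.fst).card
  · rw [ha _ h1, zero_mul]
  · by_cases h2 : ∃ i ∈ T.image Prod.fst,
        M < ((Finset.univ : Finset κ).filter fun k => (i, k) ∈ T).card
    · obtain ⟨i, hi, h3⟩ := h2
      rw [Finset.prod_eq_zero hi (hg _ h3), mul_zero]
    · exfalso
      push Not at h1 h2
      have h4 : T.card = ∑ i ∈ T.image Prod.fst, (T.filter fun q => q.1 = i).card :=
        Finset.card_eq_sum_card_image Prod.fst T
      have h5 : ∀ i ∈ T.image Prod.fst, (T.filter fun q => q.1 = i).card ≤ M := by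
        intro i hi
        refine le_trans ?_ (h2 i hi)
        refine Finset.card_le_card_of_injOn Prod.snd ?_ ?_
        · intro q hq
          simp only [Finset.coe_filter, Set.mem_ofPred_eq] at hq ⊢
          refine ⟨Finset.mem_univ _, ?_⟩
          rw [← hq.2]; exact hq.1
        · intro q hq q' hq' h
          simp only [Finset.coe_filter, Set.mem_ofPred_eq] at hq hq'
          exact Prod.ext (hq.2.trans hq'.2.symm) h
      have h6 : T.card ≤ (T.image Prod.fst).card * M := by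
        rw [h4]
        exact (Finset.sum_le_card_nsmul _ _ _ h5).trans (le_of_eq (by rw [smul_eq_mul]))
      have h7 : (T.image Prod.fst).card * M ≤ d * M := Nat.mul_le_mul_right _ h1
      omega

/-- the growth function near a point -/
lemma phi_near2 (s s' : ℂ) (R : ℝ) (hR : 0 ≤ R) (hr : ‖s‖ ≤ R) (h : ‖s' - s‖ ≤ 1) :
    phi s' ≤ phi s + R + 1 := by
  have h5 : (s' - s).re ^ 2 + (s' - s).im ^ 2 ≤ 1 := by
    have := Complex.sq_norm (s' - s)
    rw [Complex.normSq_apply] at this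
    have h6 : ‖s' - s‖ ^ 2 ≤ 1 := by
      have := norm_nonneg (s' - s)
      nlinarith
    nlinarith
  have h5' : s.re ^ 2 + s.im ^ 2 ≤ R ^ 2 := by
    have := Complex.sq_norm s
    rw [Complex.normSq_apply] at this
    have h6 : ‖s‖ ^ 2 ≤ R ^ 2 := pow_le_pow_left₀ (norm_nonneg _) hr 2
    nlinarith
  rw [Complex.sub_re] at h5
  rw [Complex.sub_im] at h5
  set a := s.re
  set b := s.im
  set x := s'.re - a with hx
  set y := s'.im - b with hy
  unfold phi
  have e1 : s'.re = a + x := by rw [hx]; ring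
  have e2 : s'.im = b + y := by rw [hy]; ring
  rw [e1, e2]
  have h7 : a * x / 9 + b * y ≤ R := by
    have h8 : (a * x / 9 + b * y) ^ 2 ≤ R ^ 2 := by
      have h9 : (a * x / 9 + b * y) ^ 2 ≤ ((a / 9) ^ 2 + b ^ 2) * (x ^ 2 + y ^ 2) := by
        nlinarith [sq_nonneg (a / 9 * y - b * x)]
      have h10 : (a / 9) ^ 2 + b ^ 2 ≤ R ^ 2 := by nlinarith [sq_nonneg a]
      have h11 : ((a / 9) ^ 2 + b ^ 2) * (x ^ 2 + y ^ 2) ≤ R ^ 2 * 1 :=
        mul_le_mul h10 h5 (by positivity) (by positivity)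
      nlinarith
    exact (le_abs_self _).trans (abs_le_of_sq_le_sq h8 hR)
  change ((a + x) ^ 2 / 9 + (b + y) ^ 2) / 2 ≤ (a ^ 2 / 9 + b ^ 2) / 2 + R + 1
  nlinarith [sq_nonneg x, sq_nonneg y]

/-- the error size -/
noncomputable def del2 (m : ℝ) : ℝ :=
  Real.sqrt 2 / (17 * m) + Real.sqrt 2 * 560 * m * Real.exp (-(13 / 2) * m ^ 2 + 20 * m + 2)

lemma tendsto_del2 : Tendsto (fun m : ℕ => del2 ((m : ℝ) + 1)) atTop (𝓝 0) := by
  have h1 : Tendsto (fun m : ℕ => ((m : ℝ) + 1)) atTop atTop :=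
    tendsto_atTop_add_const_right _ _ tendsto_natCast_atTop_atTop
  have h2 : Tendsto (fun x : ℝ => del2 x) atTop (𝓝 0) := by
    unfold del2
    rw [show (0 : ℝ) = 0 + 0 by ring]
    refine Tendsto.add ?_ ?_
    · refine Tendsto.div_atTop tendsto_const_nhds ?_
      exact Tendsto.const_mul_atTop (by norm_num) tendsto_id
    · have h3 := (Real.tendsto_pow_mul_exp_neg_atTop_nhds_zero 1).const_mul
        (Real.sqrt 2 * 560 * Real.exp 30)
      rw [mul_zero] at h3
      refine squeeze_zero' ?_ ?_ h3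
      · filter_upwards [eventually_ge_atTop 0] with x hx
        positivity
      · filter_upwards [eventually_ge_atTop 0] with x hx
        have h4 : Real.exp (-(13 / 2) * x ^ 2 + 20 * x + 2) ≤ Real.exp 30 * Real.exp (-x) := by
          rw [← Real.exp_add]
          apply Real.exp_le_exp.2
          nlinarith [sq_nonneg (x - 21 / 13)]
        have h5 : 0 ≤ Real.sqrt 2 * 560 * x := by positivity
        calc Real.sqrt 2 * 560 * x * Real.exp (-(13 / 2) * x ^ 2 + 20 * x + 2)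
            ≤ Real.sqrt 2 * 560 * x * (Real.exp 30 * Real.exp (-x)) :=
              mul_le_mul_of_nonneg_left h4 h5
          _ = _ := by ring
  exact h2.comp h1

/-- the gadget, without its constant term -/
noncomputable def gcoef2 {J : Type} [Fintype J] (s κ : J → ℂ) (w : ℝ) (N : ℕ) :
    Finset (Fin N) → ℝ := fun K => if K = ∅ then 0 else fcoef w N K - rcoef s κ w N K

lemma mev_gcoef2 {J : Type} [Fintype J] (s κ : J → ℂ) (w : ℝ) (N : ℕ) (x : Fin N → ℝ) :
    mev (gcoef2 s κ w N) x = mev (fun K => fcoef w N K - rcoef s κ w N K) x -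
      (fcoef w N ∅ - rcoef s κ w N ∅) := by
  unfold mev gcoef2
  have h1 : ∀ K : Finset (Fin N), (if K = ∅ then 0 else fcoef w N K - rcoef s κ w N K) *
      ∏ i ∈ K, x i = (fcoef w N K - rcoef s κ w N K) * ∏ i ∈ K, x i -
        if K = ∅ then (fcoef w N ∅ - rcoef s κ w N ∅) else 0 := by
    intro K
    by_cases h : K = ∅
    · subst h; simp
    · simp [h]
  simp_rw [h1]
  rw [Finset.sum_sub_distrib]
  simp

lemma num_gcoef2 {J : Type} [Fintype J] (s κ : J → ℂ) (w : ℝ) (N : ℕ) :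
    num (gcoef2 s κ w N) = num (fun K => fcoef w N K - rcoef s κ w N K) := by
  funext K
  unfold num gcoef2
  by_cases h : K = ∅
  · subst h; simp
  · simp [h]

lemma nrm_const {Ω : Type} [MeasurableSpace Ω] (μ : Measure Ω) [IsProbabilityMeasure μ] (c : ℝ) :
    nrm μ (fun _ => c) = |c| := by
  unfold nrm
  rw [integral_const]
  simp only [probReal_univ, one_smul]
  rw [← Real.rpow_mul (abs_nonneg _)]
  norm_num

/-- the gadget estimates -/
lemma gadget2 (hC1 : C1Stmt) (hC2 : C2Stmt) (hE : EStmt) {Ω : Type} [MeasurableSpace Ω]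
    {μ : Measure Ω} {u : Ω → ℝ} (hu : IsAlph μ u) (m : ℕ) (hm : 1 ≤ m) :
    ∃ N₀ : ℕ, ∀ N : ℕ, N₀ ≤ N → ∀ {J : Type} [Fintype J] (s κ : J → ℂ),
      (∑ j, ‖κ j‖ * Real.exp (phi (s j)) ≤ 28 * Real.exp (138 * (m : ℝ) ^ 2)) →
      (∀ j, ‖s j‖ ≤ 20 * m) →
      nrm (Measure.pi fun _ : Fin N => μ) (fun ω =>
        mev (gcoef2 s κ (17 * m) N) (fun k => u (ω k)) -
          mev (fcoef (17 * m) N) (fun k => u (ω k))) ≤ del2 m ∧
      nrm (Measure.pi fun _ : Fin N => μ) (fun ω => ((17 * (m : ℝ)) ^ 2)⁻¹ *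
        mev (num (gcoef2 s κ (17 * m) N)) (fun k => u (ω k)) -
          mev (fcoef (17 * m) N) (fun k => u (ω k))) ≤ del2 m := by
  obtain ⟨N₁, h1⟩ := hC1 Ω μ u hu (20 * m)
  obtain ⟨N₂, h2⟩ := hC2 Ω μ u hu (20 * m)
  refine ⟨max 1 (max N₁ N₂), fun N hN J _ s κ hK hr => ?_⟩
  have hN1 : 1 ≤ N := (le_max_left _ _).trans hN
  have hN2 : N₁ ≤ N := ((le_max_left _ _).trans (le_max_right _ _)).trans hN
  have hN3 : N₂ ≤ N := ((le_max_right _ _).trans (le_max_right _ _)).trans hN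
  have := hu.prob
  have hmR : (1 : ℝ) ≤ m := by exact_mod_cast hm
  set w : ℝ := 17 * m with hw
  have hwpos : 0 < w := by rw [hw]; positivity
  have hub : BM u := hu.bm
  set A : ℝ := Real.sqrt 2 * Real.exp (-w ^ 2 / 2) with hA
  have hA0 : 0 ≤ A := by rw [hA]; positivity
  have hAK : A * (28 * Real.exp (138 * (m : ℝ) ^ 2)) =
      28 * Real.sqrt 2 * Real.exp (-(13 / 2) * (m : ℝ) ^ 2) := by
    have : Real.exp (-w ^ 2 / 2) * Real.exp (138 * (m : ℝ) ^ 2) =
        Real.exp (-(13 / 2) * (m : ℝ) ^ 2) := by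
      rw [← Real.exp_add]; congr 1; rw [hw]; ring
    rw [← this, hA]; ring
  have bmF : BM (fun ω : Fin N → Ω => mev (fcoef w N) (fun k => u (ω k))) := BM.mev_pi _ hub
  have bmLF : BM (fun ω : Fin N → Ω => mev (num (fcoef w N)) (fun k => u (ω k))) :=
    BM.mev_pi _ hub
  have bmR : BM (fun ω : Fin N → Ω => mev (rcoef s κ w N) (fun k => u (ω k))) := BM.mev_pi _ hub
  have bmLR : BM (fun ω : Fin N → Ω => mev (num (rcoef s κ w N)) (fun k => u (ω k))) :=
    BM.mev_pi _ hub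
  have bmW : ∀ j, BM (fun ω : Fin N → Ω => ‖WW (s j) (fun k => u (ω k))‖) := fun j =>
    (BMC_WW hub N (s j)).norm
  have bmL : ∀ j, BM (fun ω : Fin N → Ω => ‖LW (s j) (fun k => u (ω k))‖) := fun j =>
    (BMC_LW hub N (s j)).norm
  have hR : nrm (Measure.pi fun _ : Fin N => μ)
      (fun ω => mev (rcoef s κ w N) (fun k => u (ω k))) ≤
      28 * Real.sqrt 2 * Real.exp (-(13 / 2) * (m : ℝ) ^ 2) * Real.exp 1 := by
    have e1 : nrm (Measure.pi fun _ : Fin N => μ)
        (fun ω => mev (rcoef s κ w N) (fun k => u (ω k))) ≤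
        nrm (Measure.pi fun _ : Fin N => μ)
        (fun ω => A * ∑ j, ‖κ j‖ * ‖WW (s j) (fun k => u (ω k))‖) := by
      refine nrm_mono bmR ((BM.sum _ fun j _ => (bmW j).const_mul _).const_mul _) fun ω => ?_
      exact (abs_mev_rcoef_le s κ w N _).trans (le_abs_self _)
    refine e1.trans ?_
    rw [nrm_const_mul, abs_of_nonneg hA0]
    have e2 : nrm (Measure.pi fun _ : Fin N => μ)
        (fun ω => ∑ j, ‖κ j‖ * ‖WW (s j) (fun k => u (ω k))‖) ≤
        (∑ j, ‖κ j‖ * Real.exp (phi (s j))) * Real.exp 1 := by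
      refine (nrm_sum_le _ fun j _ => (bmW j).const_mul _).trans ?_
      rw [Finset.sum_mul]
      refine Finset.sum_le_sum fun j _ => ?_
      rw [nrm_const_mul, abs_norm, mul_assoc, ← Real.exp_add]
      exact mul_le_mul_of_nonneg_left (h1 N hN2 (s j) (hr j)) (norm_nonneg _)
    calc A * _ ≤ A * ((∑ j, ‖κ j‖ * Real.exp (phi (s j))) * Real.exp 1) :=
          mul_le_mul_of_nonneg_left e2 hA0
      _ ≤ A * ((28 * Real.exp (138 * (m : ℝ) ^ 2)) * Real.exp 1) :=
          mul_le_mul_of_nonneg_left (mul_le_mul_of_nonneg_right hK (Real.exp_nonneg _)) hA0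
      _ = (A * (28 * Real.exp (138 * (m : ℝ) ^ 2))) * Real.exp 1 := by ring
      _ = _ := by rw [hAK]
  have hLR : nrm (Measure.pi fun _ : Fin N => μ)
      (fun ω => mev (num (rcoef s κ w N)) (fun k => u (ω k))) ≤
      28 * Real.sqrt 2 * Real.exp (-(13 / 2) * (m : ℝ) ^ 2) *
        (20 * m * Real.exp (20 * m + 1 + 1)) := by
    have e1 : nrm (Measure.pi fun _ : Fin N => μ)
        (fun ω => mev (num (rcoef s κ w N)) (fun k => u (ω k))) ≤
        nrm (Measure.pi fun _ : Fin N => μ)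
        (fun ω => A * ∑ j, ‖κ j‖ * ‖LW (s j) (fun k => u (ω k))‖) := by
      refine nrm_mono bmLR ((BM.sum _ fun j _ => (bmL j).const_mul _).const_mul _) fun ω => ?_
      exact (abs_mev_num_rcoef_le s κ w N _).trans (le_abs_self _)
    refine e1.trans ?_
    rw [nrm_const_mul, abs_of_nonneg hA0]
    have e2 : nrm (Measure.pi fun _ : Fin N => μ)
        (fun ω => ∑ j, ‖κ j‖ * ‖LW (s j) (fun k => u (ω k))‖) ≤
        (∑ j, ‖κ j‖ * Real.exp (phi (s j))) * (20 * m * Real.exp (20 * m + 1 + 1)) := by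
      refine (nrm_sum_le _ fun j _ => (bmL j).const_mul _).trans ?_
      rw [Finset.sum_mul]
      refine Finset.sum_le_sum fun j _ => ?_
      rw [nrm_const_mul, abs_norm, mul_assoc]
      refine mul_le_mul_of_nonneg_left ?_ (norm_nonneg _)
      have h3 := h2 N hN3 (s j) (hr j) 1 (phi (s j) + 20 * m + 1) one_pos le_rfl
        (fun s' hs' => phi_near2 (s j) s' (20 * m) (by positivity) (hr j) hs')
      refine h3.trans ?_
      rw [div_one, show phi (s j) + 20 * (m : ℝ) + 1 + 1 = phi (s j) + (20 * m + 1 + 1) by ring,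
        Real.exp_add]
      calc ‖s j‖ * (Real.exp (phi (s j)) * Real.exp (20 * m + 1 + 1)) ≤
            (20 * m) * (Real.exp (phi (s j)) * Real.exp (20 * m + 1 + 1)) :=
            mul_le_mul_of_nonneg_right (hr j) (by positivity)
        _ = _ := by ring
    calc A * _ ≤ A * ((∑ j, ‖κ j‖ * Real.exp (phi (s j))) *
            (20 * m * Real.exp (20 * m + 1 + 1))) := mul_le_mul_of_nonneg_left e2 hA0
      _ ≤ A * ((28 * Real.exp (138 * (m : ℝ) ^ 2)) * (20 * m * Real.exp (20 * m + 1 + 1))) :=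
          mul_le_mul_of_nonneg_left (mul_le_mul_of_nonneg_right hK (by positivity)) hA0
      _ = (A * (28 * Real.exp (138 * (m : ℝ) ^ 2))) * (20 * m * Real.exp (20 * m + 1 + 1)) := by
          ring
      _ = _ := by rw [hAK]
  have hexp2 : 28 * Real.sqrt 2 * Real.exp (-(13 / 2) * (m : ℝ) ^ 2) *
        (20 * m * Real.exp (20 * m + 1 + 1)) =
      Real.sqrt 2 * 560 * m * Real.exp (-(13 / 2) * (m : ℝ) ^ 2 + 20 * m + 2) := by
    have h9 : Real.exp (-(13 / 2) * (m : ℝ) ^ 2 + 20 * m + 2) =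
        Real.exp (-(13 / 2) * (m : ℝ) ^ 2) * Real.exp (20 * m + 1 + 1) := by
      rw [← Real.exp_add]
      congr 1
      ring
    rw [h9]
    generalize Real.exp (-(13 / 2) * (m : ℝ) ^ 2) = e1
    generalize Real.exp (20 * (m : ℝ) + 1 + 1) = e2
    ring
  have hexp1 : 28 * Real.sqrt 2 * Real.exp (-(13 / 2) * (m : ℝ) ^ 2) * Real.exp 1 +
      56 * Real.sqrt 2 * Real.exp (-(13 / 2) * (m : ℝ) ^ 2) ≤
      Real.sqrt 2 * 560 * m * Real.exp (-(13 / 2) * (m : ℝ) ^ 2 + 20 * m + 2) := by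
    rw [← hexp2]
    have h10 : Real.exp 1 + 2 ≤ 20 * m * Real.exp (20 * m + 1 + 1) := by
      have h11 : Real.exp 1 ≤ Real.exp (20 * m + 1 + 1) := Real.exp_le_exp.2 (by nlinarith)
      have h12 : 1 ≤ Real.exp (20 * m + 1 + 1) := Real.one_le_exp (by positivity)
      nlinarith
    calc _ = 28 * Real.sqrt 2 * Real.exp (-(13 / 2) * (m : ℝ) ^ 2) * (Real.exp 1 + 2) := by ring
      _ ≤ _ := mul_le_mul_of_nonneg_left h10 (by positivity)
  have hconst : |fcoef w N ∅ - rcoef s κ w N ∅| ≤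
      56 * Real.sqrt 2 * Real.exp (-(13 / 2) * (m : ℝ) ^ 2) := by
    have h1 : fcoef w N ∅ - rcoef s κ w N ∅ = A * (1 - (∑ j, κ j).re) := by
      unfold fcoef rcoef
      simp only [Finset.card_empty, pow_zero, mul_one, Complex.one_re]
      rw [hA]; ring
    rw [h1, abs_mul, abs_of_nonneg hA0]
    have h2 : |(∑ j, κ j).re| ≤ 28 * Real.exp (138 * (m : ℝ) ^ 2) := by
      refine (Complex.abs_re_le_norm _).trans ((norm_sum_le _ _).trans (le_trans ?_ hK))
      refine Finset.sum_le_sum fun j _ => ?_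
      have : 1 ≤ Real.exp (phi (s j)) := Real.one_le_exp (by unfold phi; positivity)
      nlinarith [norm_nonneg (κ j)]
    have h3 : 1 ≤ 28 * Real.exp (138 * (m : ℝ) ^ 2) := by
      have := Real.one_le_exp (by positivity : 0 ≤ 138 * (m : ℝ) ^ 2)
      linarith
    have h4 : |1 - (∑ j, κ j).re| ≤ 2 * (28 * Real.exp (138 * (m : ℝ) ^ 2)) := by
      refine (abs_sub _ _).trans ?_
      rw [abs_one]; linarith
    calc A * _ ≤ A * (2 * (28 * Real.exp (138 * (m : ℝ) ^ 2))) :=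
          mul_le_mul_of_nonneg_left h4 hA0
      _ = 2 * (A * (28 * Real.exp (138 * (m : ℝ) ^ 2))) := by ring
      _ = _ := by rw [hAK]; ring
  have hfirst : 0 ≤ Real.sqrt 2 / (17 * (m : ℝ)) := by positivity
  constructor
  · have e1 : nrm (Measure.pi fun _ : Fin N => μ) (fun ω =>
        mev (gcoef2 s κ w N) (fun k => u (ω k)) -
          mev (fcoef w N) (fun k => u (ω k))) ≤
        nrm (Measure.pi fun _ : Fin N => μ)
          (fun ω => mev (rcoef s κ w N) (fun k => u (ω k))) +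
        nrm (Measure.pi fun _ : Fin N => μ)
          (fun _ => (fcoef w N ∅ - rcoef s κ w N ∅)) := by
      refine le_trans (le_of_eq ?_) (nrm_add_le bmR (BM.const _))
      refine nrm_congr fun ω => ?_
      rw [mev_gcoef2, mev_sub, ← abs_neg]
      congr 1
      ring
    rw [nrm_const] at e1
    unfold del2
    linarith
  · have e1 : ∀ ω : Fin N → Ω, (w ^ 2)⁻¹ *
        mev (num (gcoef2 s κ w N)) (fun k => u (ω k)) -
          mev (fcoef w N) (fun k => u (ω k)) =
        (w ^ 2)⁻¹ * (mev (num (fcoef w N)) (fun k => u (ω k)) -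
          w ^ 2 * mev (fcoef w N) (fun k => u (ω k))) -
        (w ^ 2)⁻¹ * mev (num (rcoef s κ w N)) (fun k => u (ω k)) := by
      intro ω
      rw [num_gcoef2, num_sub, mev_sub]
      field_simp
      ring
    simp_rw [e1]
    have bmD : BM (fun ω : Fin N → Ω => mev (num (fcoef w N)) (fun k => u (ω k)) -
          w ^ 2 * mev (fcoef w N) (fun k => u (ω k))) := bmLF.sub (bmF.const_mul _)
    refine (nrm_sub_le (bmD.const_mul _) (bmLR.const_mul _)).trans ?_
    rw [nrm_const_mul, nrm_const_mul, abs_of_nonneg (by positivity : 0 ≤ (w ^ 2)⁻¹)]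
    have e2 : nrm (Measure.pi fun _ : Fin N => μ)
        (fun ω => mev (num (fcoef w N)) (fun k => u (ω k)) -
          w ^ 2 * mev (fcoef w N) (fun k => u (ω k))) ≤ Real.sqrt 2 * w := by
      refine (nrm_le_sqrt bmD).trans ?_
      refine (Real.sqrt_le_sqrt (hE Ω μ u hu w N hwpos hN1).2).trans (le_of_eq ?_)
      rw [Real.sqrt_mul (by norm_num), Real.sqrt_sq hwpos.le]
    have e3 : (w ^ 2)⁻¹ * nrm (Measure.pi fun _ : Fin N => μ)
        (fun ω => mev (num (fcoef w N)) (fun k => u (ω k)) -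
          w ^ 2 * mev (fcoef w N) (fun k => u (ω k))) ≤ Real.sqrt 2 / w := by
      refine (mul_le_mul_of_nonneg_left e2 (by positivity)).trans (le_of_eq ?_)
      field_simp
    have e4 : (w ^ 2)⁻¹ * nrm (Measure.pi fun _ : Fin N => μ)
        (fun ω => mev (num (rcoef s κ w N)) (fun k => u (ω k))) ≤
        Real.sqrt 2 * 560 * m * Real.exp (-(13 / 2) * (m : ℝ) ^ 2 + 20 * m + 2) := by
      rw [← hexp2]
      refine le_trans ?_ hLR
      have h5 : (w ^ 2)⁻¹ ≤ 1 := by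
        apply inv_le_one_of_one_le₀
        rw [hw]; nlinarith
      calc _ ≤ 1 * nrm (Measure.pi fun _ : Fin N => μ)
            (fun ω => mev (num (rcoef s κ w N)) (fun k => u (ω k))) :=
            mul_le_mul_of_nonneg_right h5 (nrm_nonneg _)
        _ = _ := one_mul _
    unfold del2
    rw [← hw]
    linarith

/-- the inequality at a finite stage -/
lemma finite_ineq2 (hA1 : A1Stmt) (hA3 : A3Stmt) (hB0 : B0Stmt)
    (hC1 : C1Stmt) (hC2 : C2Stmt) (hE : EStmt)
    {Ω : Type} [MeasurableSpace Ω] {μ : Measure Ω} {u : Ω → ℝ} (hu : IsAlph μ u) {c : ℝ}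
    (hc : 0 < c) (hyp : Hyp2 μ u c) {ι : Type} [Fintype ι] [DecidableEq ι] {d : ℕ}
    {a : Finset ι → ℝ} (ha : ∀ S : Finset ι, d < S.card → a S = 0) {C : ℝ}
    (hb : ∀ (Ω : Type) [MeasurableSpace Ω] (μ : Measure Ω) [IsProbabilityMeasure μ]
    (X Y Z : Ω → ℝ) (δ : ℝ), BM X → BM Y → BM Z → nrm μ Y ≤ 2 → δ ≤ 1 →
    nrm μ (fun x => X x - Y x) ≤ δ → nrm μ (fun x => Z x - Y x) ≤ δ →
    |nrm (Measure.pi fun _ : ι => μ) (fun ω => mev a fun i => Y (ω i)) -
      nrm (Measure.pi fun _ : ι => μ) (fun ω => mev a fun i => X (ω i))| ≤ C * δ ∧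
    |nrm (Measure.pi fun _ : ι => μ) (fun ω => ∑ S : Finset ι, a S * ∑ i ∈ S,
        Z (ω i) * ∏ j ∈ S.erase i, X (ω j)) -
      nrm (Measure.pi fun _ : ι => μ) (fun ω => mev (num a) fun i => Y (ω i))| ≤ C * δ)
    (m : ℕ) (hm : 1 ≤ m) (hdel : del2 m ≤ 1) :
    ∃ N₀ : ℕ, ∀ N : ℕ, N₀ ≤ N →
      nrm (Measure.pi fun _ : ι => (Measure.pi fun _ : Fin N => μ))
          (fun ω => mev (num a) fun i => mev (fcoef (17 * m) N) (fun k => u (ω i k))) -
        C * del2 m ≤
      15 / 17 * c * d * (nrm (Measure.pi fun _ : ι => (Measure.pi fun _ : Fin N => μ))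
          (fun ω => mev a fun i => mev (fcoef (17 * m) N) (fun k => u (ω i k))) +
            C * del2 m) := by
  have := hu.prob
  obtain ⟨N₀, hN₀⟩ := gadget2 hC1 hC2 hE hu m hm
  refine ⟨max 1 N₀, fun N hN => ?_⟩
  have hN1 : 1 ≤ N := (le_max_left _ _).trans hN
  obtain ⟨J, hJ, s, κ, hid, hK, hr⟩ := d2 m hm N
  obtain ⟨hX, hZ⟩ := hN₀ N ((le_max_right _ _).trans hN) s κ hK hr
  have hmR : (1 : ℝ) ≤ m := by exact_mod_cast hm
  set w : ℝ := 17 * m with hw
  have hwpos : 0 < w := by rw [hw]; positivity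
  have hub : BM u := hu.bm
  set g : Finset (Fin N) → ℝ := gcoef2 s κ w N with hg
  have hhigh : ∀ K : Finset (Fin N), 255 * m ^ 2 < K.card → g K = 0 := by
    intro K hKc
    have hKN : K.card ≤ N := by simpa using Finset.card_le_univ K
    have h1 := hid K.card hKc.le hKN
    have h2 : ∑ j, κ j * (s j / (Real.sqrt N : ℝ)) ^ K.card =
        (Complex.I * w / (Real.sqrt N : ℝ)) ^ K.card := by
      rw [div_pow, hw, show Complex.I * ((17 * (m : ℝ) : ℝ) : ℂ) = Complex.I * (17 * m) by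
        push_cast; ring, ← h1, Finset.sum_div]
      refine Finset.sum_congr rfl fun j _ => ?_
      rw [div_pow, mul_div_assoc]
    rw [hg]
    simp only [gcoef2, fcoef, rcoef, h2, sub_self, ite_self]
  have hg0 : g ∅ = 0 := by rw [hg]; simp [gcoef2]
  set P : Measure (Fin N → Ω) := Measure.pi fun _ : Fin N => μ with hP
  set X : (Fin N → Ω) → ℝ := fun ω => mev g (fun k => u (ω k)) with hXdef
  set Y : (Fin N → Ω) → ℝ := fun ω => mev (fcoef w N) (fun k => u (ω k)) with hYdef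
  set Z : (Fin N → Ω) → ℝ := fun ω => (w ^ 2)⁻¹ * mev (num g) (fun k => u (ω k)) with hZdef
  have bX : BM X := BM.mev_pi _ hub
  have bY : BM Y := BM.mev_pi _ hub
  have bZ : BM Z := (BM.mev_pi _ hub).const_mul _
  have hY2 : nrm P Y ≤ 2 := by
    refine (nrm_le_sqrt bY).trans ?_
    refine (Real.sqrt_le_sqrt (hE Ω μ u hu w N hwpos hN1).1).trans ?_
    rw [Real.sqrt_le_left (by norm_num)]
    norm_num
  obtain ⟨hb1, hb2⟩ := hb (Fin N → Ω) P X Y Z (del2 m) bX bY bZ hY2 hdel hX hZ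
  have hH := hyp (ι × Fin N) (d * (255 * m ^ 2)) (HS.comp a g)
    (fun T hT => comp_deg a g d (255 * m ^ 2) ha hhigh T hT)
  have bmA : Measurable (fun ω : ι × Fin N → Ω => mev (HS.comp a g) (fun q => u (ω q))) :=
    (BM.mev_pi _ hub).1
  have bmB : Measurable (fun ω : ι × Fin N → Ω => mev (num (HS.comp a g)) (fun q => u (ω q))) :=
    (BM.mev_pi _ hub).1
  rw [hB0 Ω μ ι (Fin N) _ bmA, hB0 Ω μ ι (Fin N) _ bmB] at hH
  have e1 : ∀ ω : ι → Fin N → Ω, mev (HS.comp a g) (fun q : ι × Fin N => u (ω q.1 q.2)) =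
      mev a (fun i => X (ω i)) := fun ω => hA1 ι (Fin N) a g hg0 (fun q => u (ω q.1 q.2))
  have e2 : ∀ ω : ι → Fin N → Ω, mev (num (HS.comp a g)) (fun q : ι × Fin N => u (ω q.1 q.2)) =
      w ^ 2 * ∑ S : Finset ι, a S * ∑ i ∈ S, Z (ω i) * ∏ j ∈ S.erase i, X (ω j) := by
    intro ω
    rw [hA3 ι (Fin N) a g hg0 (fun q => u (ω q.1 q.2)), Finset.mul_sum]
    refine Finset.sum_congr rfl fun S _ => ?_
    have e3 : w ^ 2 * ∑ i ∈ S, Z (ω i) * ∏ j ∈ S.erase i, X (ω j) =
        ∑ i ∈ S, mev (num g) (fun k => u (ω i k)) *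
          ∏ j ∈ S.erase i, mev g (fun k => u (ω j k)) := by
      rw [Finset.mul_sum]
      refine Finset.sum_congr rfl fun i _ => ?_
      rw [hZdef, hXdef]
      have hw0 : w ≠ 0 := hwpos.ne'
      field_simp
    rw [mul_left_comm, e3]
  simp_rw [e1, e2] at hH
  rw [nrm_const_mul, abs_of_nonneg (by positivity : 0 ≤ w ^ 2)] at hH
  set nX := nrm (Measure.pi fun _ : ι => P) (fun ω => mev a fun i => X (ω i))
  set nY := nrm (Measure.pi fun _ : ι => P) (fun ω => mev a fun i => Y (ω i))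
  set nZ := nrm (Measure.pi fun _ : ι => P) (fun ω => ∑ S : Finset ι, a S * ∑ i ∈ S,
        Z (ω i) * ∏ j ∈ S.erase i, X (ω j))
  set nL := nrm (Measure.pi fun _ : ι => P) (fun ω => mev (num a) fun i => Y (ω i))
  have h3 : nX ≤ nY + C * del2 m := by
    have := (abs_le.1 hb1).1
    linarith
  have h4 : nL - C * del2 m ≤ nZ := by
    have := (abs_le.1 hb2).1
    linarith
  have h5 : c * ((d * (255 * m ^ 2) : ℕ) : ℝ) = w ^ 2 * (15 / 17 * c * d) := by
    rw [hw]; push_cast; ring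
  rw [h5] at hH
  have h6 : w ^ 2 * nZ ≤ w ^ 2 * (15 / 17 * c * d * nX) := by
    calc _ ≤ w ^ 2 * (15 / 17 * c * d) * nX := hH
      _ = _ := by ring
  have h7 : nZ ≤ 15 / 17 * c * d * nX := le_of_mul_le_mul_left h6 (by positivity)
  have h8 : 15 / 17 * c * d * nX ≤ 15 / 17 * c * d * (nY + C * del2 m) :=
    mul_le_mul_of_nonneg_left h3 (by positivity)
  exact h4.trans (h7.trans h8)

theorem transfer2 (hA1 : A1Stmt) (hA3 : A3Stmt) (hB0 : B0Stmt) (hB1 : B1Stmt)
    (hC1 : C1Stmt) (hC2 : C2Stmt) (hE : EStmt) (hF : FStmt) (hG0 : G0Stmt)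
    (hG1 : G1Stmt) {Ω : Type} [MeasurableSpace Ω] {μ : Measure Ω} {u : Ω → ℝ} (hu : IsAlph μ u)
    {c : ℝ} (hc : 0 < c) (hyp : Hyp2 μ u c) : Hyp2 arcM arcU (15 / 17 * c) := by
  intro ι _ _ d a ha
  have := hu.prob
  obtain ⟨C, hC, hb⟩ := hB1 ι a
  have key : ∀ m : ℕ, ∃ N : ℕ,
      (∀ j : ℕ, j ≤ m → |(∫ ω, (mev (fcoef (17 * ((m + 1 : ℕ) : ℝ)) N) (fun k => u (ω k))) ^ j
        ∂(Measure.pi fun _ : Fin N => μ)) - gmom (17 * ((m + 1 : ℕ) : ℝ)) j| ≤
          1 / ((m : ℝ) + 1)) ∧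
      (del2 ((m + 1 : ℕ) : ℝ) ≤ 1 →
        nrm (Measure.pi fun _ : ι => (Measure.pi fun _ : Fin N => μ))
          (fun ω => mev (num a) fun i => mev (fcoef (17 * ((m + 1 : ℕ) : ℝ)) N)
            (fun k => u (ω i k))) - C * del2 ((m + 1 : ℕ) : ℝ) ≤
        15 / 17 * c * d * (nrm (Measure.pi fun _ : ι => (Measure.pi fun _ : Fin N => μ))
          (fun ω => mev a fun i => mev (fcoef (17 * ((m + 1 : ℕ) : ℝ)) N)
            (fun k => u (ω i k))) + C * del2 ((m + 1 : ℕ) : ℝ))) := by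
    intro m
    have hev1 : ∀ᶠ N : ℕ in atTop, ∀ j ∈ Finset.range (m + 1),
        |(∫ ω, (mev (fcoef (17 * ((m + 1 : ℕ) : ℝ)) N) (fun k => u (ω k))) ^ j
        ∂(Measure.pi fun _ : Fin N => μ)) - gmom (17 * ((m + 1 : ℕ) : ℝ)) j| ≤
          1 / ((m : ℝ) + 1) := by
      rw [Filter.eventually_all_finset]
      intro j _
      have h1 := hF Ω μ u hu (17 * ((m + 1 : ℕ) : ℝ)) j (by positivity)
      have h2 := (Metric.tendsto_atTop.1 h1) (1 / ((m : ℝ) + 1)) (by positivity)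
      obtain ⟨N₀, hN₀⟩ := h2
      filter_upwards [eventually_ge_atTop N₀] with N hN
      have := hN₀ N hN
      rw [Real.dist_eq] at this
      exact this.le
    have hev2 : ∀ᶠ N : ℕ in atTop, (del2 ((m + 1 : ℕ) : ℝ) ≤ 1 →
        nrm (Measure.pi fun _ : ι => (Measure.pi fun _ : Fin N => μ))
          (fun ω => mev (num a) fun i => mev (fcoef (17 * ((m + 1 : ℕ) : ℝ)) N)
            (fun k => u (ω i k))) - C * del2 ((m + 1 : ℕ) : ℝ) ≤
        15 / 17 * c * d * (nrm (Measure.pi fun _ : ι => (Measure.pi fun _ : Fin N => μ))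
          (fun ω => mev a fun i => mev (fcoef (17 * ((m + 1 : ℕ) : ℝ)) N)
            (fun k => u (ω i k))) + C * del2 ((m + 1 : ℕ) : ℝ))) := by
      by_cases hdel : del2 ((m + 1 : ℕ) : ℝ) ≤ 1
      · obtain ⟨N₀, hN₀⟩ := finite_ineq2 hA1 hA3 hB0 hC1 hC2 hE hu hc hyp ha hb (m + 1)
          (by omega) hdel
        filter_upwards [eventually_ge_atTop N₀] with N hN
        exact fun _ => hN₀ N hN
      · exact Filter.Eventually.of_forall fun N h => absurd h hdel
    obtain ⟨N, h1, h2⟩ := (hev1.and hev2).exists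
    exact ⟨N, fun j hj => h1 j (Finset.mem_range.2 (by omega)), h2⟩
  choose N hN1 hN2 using key
  have hmom : ∀ j : ℕ, Tendsto (fun m : ℕ =>
      ∫ ω, (mev (fcoef (17 * ((m + 1 : ℕ) : ℝ)) (N m)) (fun k => u (ω k))) ^ j
        ∂(Measure.pi fun _ : Fin (N m) => μ)) atTop (𝓝 (∫ θ, arcU θ ^ j ∂arcM)) := by
    intro j
    have h1 : Tendsto (fun m : ℕ => gmom (17 * ((m + 1 : ℕ) : ℝ)) j) atTop
        (𝓝 (∫ θ, arcU θ ^ j ∂arcM)) := (hG0.2.2 j).comp (tendsto_add_atTop_nat 1)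
    have h2 : Tendsto (fun m : ℕ =>
      (∫ ω, (mev (fcoef (17 * ((m + 1 : ℕ) : ℝ)) (N m)) (fun k => u (ω k))) ^ j
        ∂(Measure.pi fun _ : Fin (N m) => μ)) - gmom (17 * ((m + 1 : ℕ) : ℝ)) j) atTop
        (𝓝 0) := by
      refine squeeze_zero_norm' ?_ (tendsto_one_div_add_atTop_nhds_zero_nat (𝕜 := ℝ))
      filter_upwards [eventually_ge_atTop j] with m hm
      rw [Real.norm_eq_abs]
      exact hN1 m j hm
    have h3 := h2.add h1
    simpa using h3
  have hG := fun b => hG1 (fun m => Fin (N m) → Ω) (fun m => Measure.pi fun _ : Fin (N m) => μ)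
    (fun m ω => mev (fcoef (17 * ((m + 1 : ℕ) : ℝ)) (N m)) (fun k => u (ω k)))
    (fun m => BM.mev_pi _ hu.bm) hmom ι b
  have hd0 : Tendsto (fun m : ℕ => del2 ((m + 1 : ℕ) : ℝ)) atTop (𝓝 0) := by
    have := tendsto_del2
    simpa using this
  have hdC : Tendsto (fun m : ℕ => C * del2 ((m + 1 : ℕ) : ℝ)) atTop (𝓝 0) := by
    have := hd0.const_mul C
    simpa using this
  have hL := (hG (num a)).sub hdC
  have hR := ((hG a).add hdC).const_mul (15 / 17 * c * d)
  rw [sub_zero] at hL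
  rw [add_zero] at hR
  refine le_of_tendsto_of_tendsto hL hR ?_
  have hev : ∀ᶠ m : ℕ in atTop, del2 ((m + 1 : ℕ) : ℝ) ≤ 1 := by
    have := hd0.eventually (ge_mem_nhds (by norm_num : (0 : ℝ) < 1))
    simpa using this
  filter_upwards [hev] with m hm
  exact hN2 m hm

end Pool.Agent.H29.RH
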